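import Mathlib

set_option autoImplicit false

/-! Numerical lemma for the bulk theorem (MP_d0d043_co). -/

namespace Pool.H60BX

/-- `A sqrt(n+1) (1 + log (n^q + 1))` is at most `e n` for large `n` -/
theorem small_error (A : ℝ) (hA : 0 ≤ A) (q : ℕ) (e : ℝ) (he : 0 < e) :
    ∃ n0 : ℕ, ∀ n : ℕ, n0 ≤ n →
      A * Real.sqrt ((n : ℝ) + 1) * (1 + Real.log ((n : ℝ) ^ q + 1)) ≤ e * n := by
  set T : ℝ := 2 * A * (4 * q + 5) / e + 1 with hT
  have hT1 : 1 ≤ T := by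
    have : 0 ≤ 2 * A * (4 * q + 5) / e := by positivity
    linarith
  refine ⟨⌈T ^ 4⌉₊ + 1, fun n hn => ?_⟩
  have hn1 : (1 : ℝ) ≤ n := by
    have : 1 ≤ n := le_trans (Nat.le_add_left 1 _) hn
    exact_mod_cast this
  have hnT : T ^ 4 ≤ (n : ℝ) + 1 := by
    have h1 : T ^ 4 ≤ (⌈T ^ 4⌉₊ : ℝ) := Nat.le_ceil _
    have h2 : ((⌈T ^ 4⌉₊ + 1 : ℕ) : ℝ) ≤ n := by exact_mod_cast hn
    push_cast at h2
    linarith
  set m : ℝ := (n : ℝ) + 1 with hm
  have hm0 : 0 < m := by linarith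
  set t : ℝ := m ^ ((1 : ℝ) / 4) with ht
  have ht0 : 0 < t := Real.rpow_pos_of_pos hm0 _
  have ht4 : t ^ 4 = m := by
    rw [ht, ← Real.rpow_natCast, ← Real.rpow_mul hm0.le]
    norm_num
  have htT : T ≤ t := by
    by_contra hcon
    push Not at hcon
    have : t ^ 4 < T ^ 4 := pow_lt_pow_left₀ hcon ht0.le (by norm_num)
    linarith
  have ht1 : 1 ≤ t := hT1.trans htT
  have hs : Real.sqrt m = t ^ 2 := by
    rw [← ht4, show t ^ 4 = (t ^ 2) ^ 2 by ring, Real.sqrt_sq (by positivity)]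
  have hlog : Real.log ((n : ℝ) ^ q + 1) ≤ 4 * (q + 1) * t := by
    have h1 : (n : ℝ) ^ q + 1 ≤ m ^ (q + 1) := by
      have h2 : (n : ℝ) ^ q ≤ m ^ q := pow_le_pow_left₀ (by linarith) (by linarith) q
      have h3 : (1 : ℝ) ≤ m ^ q := one_le_pow₀ (by linarith)
      have h4 : m ^ (q + 1) = m ^ q * m := pow_succ m q
      rw [h4]
      nlinarith
    have h5 : 0 < (n : ℝ) ^ q + 1 := by positivity
    have h6 := Real.log_le_log h5 h1
    rw [Real.log_pow] at h6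
    have h7 : Real.log m ≤ m ^ ((1 : ℝ) / 4) / ((1 : ℝ) / 4) :=
      Real.log_le_rpow_div hm0.le (by norm_num)
    rw [← ht] at h7
    have h8 : Real.log m ≤ 4 * t := by linarith [h7, show t / ((1 : ℝ) / 4) = 4 * t by ring]
    have h9 : ((q + 1 : ℕ) : ℝ) * Real.log m ≤ ((q + 1 : ℕ) : ℝ) * (4 * t) :=
      mul_le_mul_of_nonneg_left h8 (Nat.cast_nonneg _)
    push_cast at h6 h9
    linarith
  have h1 : 1 + Real.log ((n : ℝ) ^ q + 1) ≤ (4 * q + 5) * t := by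
    nlinarith
  rw [hs]
  have h2 : A * t ^ 2 * (1 + Real.log ((n : ℝ) ^ q + 1)) ≤ A * t ^ 2 * ((4 * q + 5) * t) :=
    mul_le_mul_of_nonneg_left h1 (by positivity)
  refine h2.trans ?_
  have h3 : 2 * A * (4 * q + 5) ≤ e * t := by
    have h4 : 2 * A * (4 * q + 5) / e ≤ t := by linarith
    rw [div_le_iff₀ he] at h4
    linarith
  have h5 : A * t ^ 2 * ((4 * q + 5) * t) ≤ e * t ^ 4 / 2 := by
    have h6 : A * t ^ 2 * ((4 * q + 5) * t) = (2 * A * (4 * q + 5)) * t ^ 3 / 2 := by ring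
    have h7 : e * t ^ 4 / 2 = (e * t) * t ^ 3 / 2 := by ring
    rw [h6, h7]
    have : (2 * A * (4 * q + 5)) * t ^ 3 ≤ (e * t) * t ^ 3 :=
      mul_le_mul_of_nonneg_right h3 (by positivity)
    linarith
  refine h5.trans ?_
  rw [ht4]
  have : m / 2 ≤ n := by linarith
  nlinarith

end Pool.H60BX
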