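import Pool.Agent.H60.BX.Loss
import Pool.Agent.H60.BX.Num
import Pool.Agent.H12.Nib.SN

set_option autoImplicit false

/-! The bulk theorem from the strong nibble. -/

namespace Pool.H60BX

open Finset
open Pool.H90BX
open scoped Classical

variable {V : Type} [Fintype V] [DecidableEq V] {l : LS V}

theorem pairM (hl : Bdd l) (L : ℕ) [NeZero L] : PairM l L := by
  intro a b hab u v
  rcases lt_or_gt_of_ne hab with h | h
  · have h1 := Pool.H90BX.Fl46.marg2 hl L (a := a) (b := b) h b.2 u v
    simpa only [ptEq60 _ a.2, ptEq60 _ b.2] using h1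
  · have h1 := Pool.H90BX.Fl46.marg2 hl L (a := b) (b := a) h a.2 v u
    have h2 : ∀ P : Fin L → V, (if P a = u ∧ P b = v then mu l L P else 0) =
        (if pt P b = v ∧ pt P a = u then mu l L P else 0) := by
      intro P
      rw [ptEq60 _ a.2, ptEq60 _ b.2]
      by_cases hc : P a = u ∧ P b = v
      · rw [if_pos hc, if_pos ⟨hc.2, hc.1⟩]
      · rw [if_neg hc, if_neg fun h => hc ⟨h.2, h.1⟩]
    simp_rw [h2]
    exact h1

theorem one_marg (hl : Bdd l) (L : ℕ) [NeZero L] (hL : 2 ≤ L) (a : Fin L) (v : V) :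
    ∑ P : Fin L → V, (if P a = v then mu l L P else 0) = 1 / nn V := by
  have h1 := Pool.H90BX.Fl46.marg1 hl L hL a.2 v
  simpa only [ptEq60 _ a.2] using h1

/-- the weights of the hypergraph -/
noncomputable def wt (l : LS V) (BadV : Finset V) (BadE : V → V → Prop)
    (BadT : V → Lb → Lb → Prop) {L : ℕ} [NeZero L] (P : Fin L → V) : ℝ :=
  if Clean l BadV BadE BadT P then nn V / L * mu l L P else 0

theorem wt_nonneg (hl : Bdd l) (BadV : Finset V) (BadE : V → V → Prop)
    (BadT : V → Lb → Lb → Prop) {L : ℕ} [NeZero L] (P : Fin L → V) :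
    0 ≤ wt l BadV BadE BadT P := by
  have hn := nnp60 hl
  unfold wt
  split_ifs
  · exact mul_nonneg (by positivity) (muNn60 hl L P)
  · exact le_rfl

theorem wt_le (hl : Bdd l) (BadV : Finset V) (BadE : V → V → Prop)
    (BadT : V → Lb → Lb → Prop) {L : ℕ} [NeZero L] (P : Fin L → V) :
    wt l BadV BadE BadT P ≤ nn V / L * mu l L P := by
  have hn := nnp60 hl
  unfold wt
  split_ifs
  · exact le_rfl
  · exact mul_nonneg (by positivity) (muNn60 hl L P)

theorem good (hl : Bdd l) (BadV : Finset V) (BadE : V → V → Prop)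
    (BadT : V → Lb → Lb → Prop) {L : ℕ} [NeZero L] (hL : 4 ≤ L) {δ : ℝ}
    (hδ : 4 * L / NN V ≤ δ) :
    Pool.Agent.H12.Nib.Good L δ (fun P : Fin L → V => univ.image P)
      (wt l BadV BadE BadT) := by
  have hn := nnp60 hl
  have hN := NNp60 hl
  have hL0 : (0 : ℝ) < L := by exact_mod_cast (by omega : 0 < L)
  refine ⟨fun P => ?_, fun P => ?_, fun P => wt_nonneg hl _ _ _ P, fun v => ?_, fun u v huv => ?_⟩
  · exact ⟨P ⟨0, by omega⟩, mem_image_of_mem _ (mem_univ _)⟩
  · refine card_image_le.trans ?_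
    rw [card_univ, Fintype.card_fin]
  · unfold Pool.Agent.H12.Nib.ld
    rw [sum_filter]
    have h1 : ∀ P : Fin L → V, (if v ∈ univ.image P then wt l BadV BadE BadT P else 0) ≤
        ∑ a : Fin L, nn V / L * (if P a = v then mu l L P else 0) := by
      intro P
      have h0 : ∀ a : Fin L, 0 ≤ nn V / L * (if P a = v then mu l L P else 0) := by
        intro a
        refine mul_nonneg (by positivity) ?_
        split_ifs
        · exact muNn60 hl L P
        · exact le_rfl
      split_ifs with h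
      · obtain ⟨a, -, ha⟩ := mem_image.1 h
        refine (wt_le hl _ _ _ P).trans ?_
        refine le_trans (le_of_eq ?_) (single_le_sum (f := fun a : Fin L =>
          nn V / L * (if P a = v then mu l L P else 0)) (fun c _ => h0 c) (mem_univ a))
        simp only [if_pos ha]
      · exact sum_nonneg fun a _ => h0 a
    refine (sum_le_sum fun P _ => h1 P).trans ?_
    rw [sum_comm]
    have h2 : ∀ a : Fin L, ∑ P : Fin L → V, nn V / L * (if P a = v then mu l L P else 0) =
        1 / L := by
      intro a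
      rw [← mul_sum, one_marg hl L (by omega) a v]
      field_simp
    simp_rw [h2]
    rw [sum_const, card_univ, Fintype.card_fin, nsmul_eq_mul]
    apply le_of_eq
    field_simp
  · unfold Pool.Agent.H12.Nib.cd
    rw [sum_filter]
    have h1 : ∀ P : Fin L → V,
        (if u ∈ univ.image P ∧ v ∈ univ.image P then wt l BadV BadE BadT P else 0) ≤
        ∑ a : Fin L, ∑ b : Fin L, nn V / L * (if a ≠ b ∧ P a = u ∧ P b = v then mu l L P
          else 0) := by
      intro P
      have h0 : ∀ a b : Fin L, 0 ≤ nn V / L * (if a ≠ b ∧ P a = u ∧ P b = v then mu l L P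
          else 0) := by
        intro a b
        refine mul_nonneg (by positivity) ?_
        split_ifs
        · exact muNn60 hl L P
        · exact le_rfl
      split_ifs with h
      · obtain ⟨a, -, ha⟩ := mem_image.1 h.1
        obtain ⟨b, -, hb⟩ := mem_image.1 h.2
        have hab : a ≠ b := by
          rintro rfl
          exact huv (ha.symm.trans hb)
        refine (wt_le hl _ _ _ P).trans ?_
        refine le_trans (le_trans (le_of_eq ?_) (single_le_sum (f := fun b : Fin L =>
          nn V / L * (if a ≠ b ∧ P a = u ∧ P b = v then mu l L P else 0))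
          (fun c _ => h0 a c) (mem_univ b)))
          (single_le_sum (f := fun a : Fin L => ∑ b : Fin L,
          nn V / L * (if a ≠ b ∧ P a = u ∧ P b = v then mu l L P else 0))
          (fun c _ => sum_nonneg fun d _ => h0 c d) (mem_univ a))
        simp only [if_pos (⟨hab, ha, hb⟩ : a ≠ b ∧ P a = u ∧ P b = v)]
      · exact sum_nonneg fun a _ => sum_nonneg fun b _ => h0 a b
    refine (sum_le_sum fun P _ => h1 P).trans ?_
    rw [sum_comm]
    have h2 : ∀ a b : Fin L, ∑ P : Fin L → V, nn V / L *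
        (if a ≠ b ∧ P a = u ∧ P b = v then mu l L P else 0) ≤ 4 / (L * NN V) := by
      intro a b
      rw [← mul_sum]
      by_cases hab : a = b
      · have : ∀ P : Fin L → V, (if a ≠ b ∧ P a = u ∧ P b = v then mu l L P else 0) = 0 :=
          fun P => if_neg fun h => h.1 hab
        simp_rw [this]
        rw [sum_const_zero, mul_zero]
        positivity
      · have h3 : ∀ P : Fin L → V, (if a ≠ b ∧ P a = u ∧ P b = v then mu l L P else 0) =
            (if P a = u ∧ P b = v then mu l L P else 0) := by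
          intro P
          by_cases hc : P a = u ∧ P b = v
          · rw [if_pos hc, if_pos ⟨hab, hc⟩]
          · rw [if_neg hc, if_neg fun h => hc h.2]
        simp_rw [h3]
        refine (mul_le_mul_of_nonneg_left (pairM hl L a b hab u v) (by positivity)).trans ?_
        apply le_of_eq
        field_simp
    have h4 : ∀ a : Fin L, ∑ P : Fin L → V, ∑ b : Fin L, nn V / L *
        (if a ≠ b ∧ P a = u ∧ P b = v then mu l L P else 0) ≤ L * (4 / (L * NN V)) := by
      intro a
      rw [sum_comm]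
      refine (sum_le_sum fun b _ => h2 a b).trans (le_of_eq ?_)
      rw [sum_const, card_univ, Fintype.card_fin, nsmul_eq_mul]
    refine (sum_le_sum fun a _ => h4 a).trans ?_
    rw [sum_const, card_univ, Fintype.card_fin, nsmul_eq_mul]
    refine le_trans (le_of_eq ?_) hδ
    field_simp

theorem wt_sum_le (hl : Bdd l) (BadV : Finset V) (BadE : V → V → Prop)
    (BadT : V → Lb → Lb → Prop) {L : ℕ} [NeZero L] (hL : 4 ≤ L) :
    ∑ P : Fin L → V, wt l BadV BadE BadT P ≤ nn V / L := by
  refine (sum_le_sum fun P _ => wt_le hl _ _ _ P).trans ?_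
  rw [← mul_sum, mu_total hl L (by omega), mul_one]

/-- integrals against the weights -/
theorem wt_int (hl : Bdd l) (L : ℕ) [NeZero L] (hL : 4 ≤ L) {xi : ℝ}
    (hxi : 0 ≤ xi) (BadV : Finset V) (BadE : V → V → Prop) (BadT : V → Lb → Lb → Prop)
    (hbad : BadSmall l xi BadV BadE BadT) (f : (Fin L → V) → ℝ) (B : ℝ)
    (hf : ∀ P, 0 ≤ f P ∧ f P ≤ B) :
    nn V / L * (∑ P : Fin L → V, mu l L P * f P) -
      nn V / L * (B * (4 * (L : ℝ) ^ 2 / NN V + 5 * L * xi)) ≤
      ∑ P : Fin L → V, wt l BadV BadE BadT P * f P := by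
  have hn := nnp60 hl
  have hN := NNp60 hl
  have hL0 : (0 : ℝ) < L := by exact_mod_cast (by omega : 0 < L)
  have hB : 0 ≤ B := (hf (fun _ => (Fintype.card_pos_iff.1 (by
    have := hl.1; omega)).some)).1.trans (hf _).2
  have h1 : ∀ P : Fin L → V, nn V / L * (mu l L P * f P) -
      nn V / L * (B * (if Clean l BadV BadE BadT P then 0 else mu l L P)) ≤
      wt l BadV BadE BadT P * f P := by
    intro P
    have hm := muNn60 hl L P
    unfold wt
    split_ifs with h
    · apply le_of_eq; ring
    · rw [zero_mul, ← mul_sub]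
      refine mul_nonpos_of_nonneg_of_nonpos (by positivity) ?_
      have h2 := (hf P).2
      nlinarith
  have h2 := sum_le_sum fun P (_ : P ∈ (univ : Finset (Fin L → V))) => h1 P
  rw [sum_sub_distrib, ← mul_sum, ← mul_sum, ← mul_sum] at h2
  have h3 := loss hl L hL (pairM hl L) hxi BadV BadE BadT hbad
  have h4 : nn V / L * (B * ∑ P : Fin L → V, (if Clean l BadV BadE BadT P then 0 else mu l L P))
      ≤ nn V / L * (B * (4 * (L : ℝ) ^ 2 / NN V + 5 * L * xi)) :=
    mul_le_mul_of_nonneg_left (mul_le_mul_of_nonneg_left h3 hB) (by positivity)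
  linarith

theorem bulk (L : ℕ) [NeZero L] (hL : 4 ≤ L) (e : ℝ) (he : 0 < e) (q : ℕ) :
    ∃ xi > (0 : ℝ), ∃ n0 : ℕ, ∀ (V : Type) [Fintype V] [DecidableEq V],
      n0 ≤ Fintype.card V → ∀ l : LS V, Bdd l →
      ∀ (BadV : Finset V) (BadE : V → V → Prop) (BadT : V → Lb → Lb → Prop),
      BadSmall l xi BadV BadE BadT →
      ∀ (Λ : Type) [Fintype Λ] (F : Λ → (Fin L → V) → ℝ),
      Fintype.card Λ ≤ Fintype.card V ^ q → (∀ i P, 0 ≤ F i P ∧ F i P ≤ L) →
      ∃ M : Finset (Fin L → V), (∀ P ∈ M, Clean l BadV BadE BadT P) ∧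
        (∀ P ∈ M, ∀ P' ∈ M, P ≠ P' → ∀ a b, P a ≠ P' b) ∧
        (1 - e) * nn V ≤ L * M.card ∧
        ∀ i, nn V / L * (∑ P, mu l L P * F i P) - e * nn V ≤ ∑ P ∈ M, F i P := by
  have hL0 : (0 : ℝ) < L := by exact_mod_cast (by omega : 0 < L)
  have hL1 : (1 : ℝ) ≤ L := by exact_mod_cast (by omega : 1 ≤ L)
  obtain ⟨δ, hδ, A, hA, hNC⟩ := Pool.Agent.H12.Nib.strong L (by omega) L (e / 8) hL0 (by positivity)
  obtain ⟨n1, hn1⟩ := small_error (L * A) (by positivity) q (e / 4) (by positivity)
  refine ⟨e / (20 * L), by positivity, max n1 (max (⌈16 * (L : ℝ) ^ 2 / e⌉₊ + 2)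
    (⌈4 * (L : ℝ) / δ⌉₊ + 2)), ?_⟩
  intro V _ _ hcard l hl BadV BadE BadT hbad Λ _ F hΛ hF
  have hn := nnp60 hl
  have hN := NNp60 hl
  have hc1 : n1 ≤ Fintype.card V := (le_max_left _ _).trans hcard
  have hc2 : ⌈16 * (L : ℝ) ^ 2 / e⌉₊ + 2 ≤ Fintype.card V :=
    ((le_max_left _ _).trans (le_max_right _ _)).trans hcard
  have hc3 : ⌈4 * (L : ℝ) / δ⌉₊ + 2 ≤ Fintype.card V :=
    ((le_max_right _ _).trans (le_max_right _ _)).trans hcard
  have hN2 : 16 * (L : ℝ) ^ 2 / e ≤ NN V := by
    have h1 := Nat.le_ceil (16 * (L : ℝ) ^ 2 / e)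
    have h2 : ((⌈16 * (L : ℝ) ^ 2 / e⌉₊ + 2 : ℕ) : ℝ) ≤ Fintype.card V := by exact_mod_cast hc2
    push_cast at h2
    unfold NN
    linarith
  have hN3 : 4 * (L : ℝ) / δ ≤ NN V := by
    have h1 := Nat.le_ceil (4 * (L : ℝ) / δ)
    have h2 : ((⌈4 * (L : ℝ) / δ⌉₊ + 2 : ℕ) : ℝ) ≤ Fintype.card V := by exact_mod_cast hc3
    push_cast at h2
    unfold NN
    linarith
  have hlam : 4 * (L : ℝ) ^ 2 / NN V + 5 * L * (e / (20 * L)) ≤ e / 2 := by
    have h1 : 4 * (L : ℝ) ^ 2 / NN V ≤ e / 4 := by
      rw [div_le_iff₀ hN]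
      rw [div_le_iff₀ he] at hN2
      linarith
    have h2 : 5 * L * (e / (20 * L)) = e / 4 := by field_simp; norm_num
    linarith
  have hcod : 4 * (L : ℝ) / NN V ≤ δ := by
    rw [div_le_iff₀ hN]
    rw [div_le_iff₀ hδ] at hN3
    linarith
  have herr := hn1 (Fintype.card V) hc1
  set f : Option Λ → (Fin L → V) → ℝ := fun o P => o.elim 1 (fun i => F i P) with hfdef
  have hf : ∀ o P, 0 ≤ f o P ∧ f o P ≤ L := by
    intro o P
    cases o with
    | none => exact ⟨zero_le_one, hL1⟩
    | some i => exact hF i P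
  obtain ⟨M, hM1, hM2, hM3⟩ := hNC V (Fin L → V) (fun P => univ.image P)
    (wt l BadV BadE BadT) (good hl BadV BadE BadT hL hcod) (Option Λ) f hf
  -- the error term
  have hWle := wt_sum_le hl BadV BadE BadT hL (L := L)
  have hW0 : 0 ≤ ∑ P : Fin L → V, wt l BadV BadE BadT P :=
    sum_nonneg fun P _ => wt_nonneg hl _ _ _ P
  have hnL : nn V / L ≤ nn V := div_le_self hn.le hL1
  have herr2 : L * (A * Real.sqrt ((∑ P : Fin L → V, wt l BadV BadE BadT P) + 1) *
      (1 + Real.log (Fintype.card (Option Λ)))) ≤ e / 4 * nn V := by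
    have h1 : Real.sqrt ((∑ P : Fin L → V, wt l BadV BadE BadT P) + 1) ≤
        Real.sqrt ((Fintype.card V : ℝ) + 1) := by
      apply Real.sqrt_le_sqrt
      have : nn V = (Fintype.card V : ℝ) := rfl
      linarith
    have h2 : Real.log (Fintype.card (Option Λ)) ≤ Real.log ((Fintype.card V : ℝ) ^ q + 1) := by
      apply Real.log_le_log
      · exact_mod_cast Fintype.card_pos
      · rw [Fintype.card_option]
        push_cast
        have : ((Fintype.card Λ : ℕ) : ℝ) ≤ (Fintype.card V : ℝ) ^ q := by exact_mod_cast hΛ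
        linarith
    have h3 : 0 ≤ Real.log (Fintype.card (Option Λ)) := by
      apply Real.log_nonneg
      exact_mod_cast Fintype.card_pos
    calc L * (A * Real.sqrt ((∑ P : Fin L → V, wt l BadV BadE BadT P) + 1) *
          (1 + Real.log (Fintype.card (Option Λ))))
        = (L * A) * Real.sqrt ((∑ P : Fin L → V, wt l BadV BadE BadT P) + 1) *
          (1 + Real.log (Fintype.card (Option Λ))) := by ring
      _ ≤ (L * A) * Real.sqrt ((Fintype.card V : ℝ) + 1) *
          (1 + Real.log ((Fintype.card V : ℝ) ^ q + 1)) := by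
          apply mul_le_mul
          · exact mul_le_mul_of_nonneg_left h1 (by positivity)
          · linarith
          · linarith
          · positivity
      _ ≤ e / 4 * nn V := herr
  have herr3 : A * Real.sqrt ((∑ P : Fin L → V, wt l BadV BadE BadT P) + 1) *
      (1 + Real.log (Fintype.card (Option Λ))) ≤ e / 4 * nn V := by
    refine le_trans ?_ herr2
    have h0 : 0 ≤ A * Real.sqrt ((∑ P : Fin L → V, wt l BadV BadE BadT P) + 1) *
      (1 + Real.log (Fintype.card (Option Λ))) := by
      have h3 : 0 ≤ Real.log (Fintype.card (Option Λ)) := by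
        apply Real.log_nonneg
        exact_mod_cast Fintype.card_pos
      positivity
    nlinarith
  refine ⟨M, ?_, ?_, ?_, ?_⟩
  · intro P hP
    by_contra hc
    apply hM2 P hP
    unfold wt
    rw [if_neg hc]
  · intro P hP P' hP' hne a b hab
    have h1 := hM1 P hP P' hP' hne
    rw [disjoint_left] at h1
    exact h1 (mem_image_of_mem _ (mem_univ a)) (hab ▸ mem_image_of_mem _ (mem_univ b))
  · have h1 := hM3 none
    have h2 := wt_int hl L hL (by positivity) BadV BadE BadT hbad (fun _ => 1) 1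
      (fun _ => ⟨zero_le_one, le_rfl⟩)
    simp only [mul_one, one_mul, mu_total hl L (by omega : 2 ≤ L)] at h2
    have h3 : ∀ P, f none P = 1 := fun _ => rfl
    simp only [h3, mul_one, sum_const, nsmul_eq_mul] at h1
    have h4 : nn V / L * (4 * (L : ℝ) ^ 2 / NN V + 5 * L * (e / (20 * L))) ≤
        nn V / L * (e / 2) := mul_le_mul_of_nonneg_left hlam (by positivity)
    have h5 : nn V / L * (1 - e / 2) ≤ ∑ P : Fin L → V, wt l BadV BadE BadT P := by
      linarith
    have h6 : e / 8 * (∑ P : Fin L → V, wt l BadV BadE BadT P) ≤ e / 8 * (nn V / L) :=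
      mul_le_mul_of_nonneg_left hWle (by positivity)
    have h7 : nn V / L * (1 - e / 2) - e / 4 * (nn V / L) -
        A * Real.sqrt ((∑ P : Fin L → V, wt l BadV BadE BadT P) + 1) *
        (1 + Real.log (Fintype.card (Option Λ))) ≤ (M.card : ℝ) := by
      linarith
    have h8 := mul_le_mul_of_nonneg_left h7 hL0.le
    have h9 : (L : ℝ) * (nn V / L * (1 - e / 2) - e / 4 * (nn V / L) -
        A * Real.sqrt ((∑ P : Fin L → V, wt l BadV BadE BadT P) + 1) *
        (1 + Real.log (Fintype.card (Option Λ)))) = nn V * (1 - e / 2) - e / 4 * nn V -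
        L * (A * Real.sqrt ((∑ P : Fin L → V, wt l BadV BadE BadT P) + 1) *
        (1 + Real.log (Fintype.card (Option Λ)))) := by
      field_simp
    rw [h9] at h8
    linarith
  · intro i
    have h1 := hM3 (some i)
    have h2 := wt_int hl L hL (by positivity) BadV BadE BadT hbad (F i) L (hF i)
    have h3 : ∀ P, f (some i) P = F i P := fun _ => rfl
    simp only [h3] at h1
    have h4 : nn V / L * (L * (4 * (L : ℝ) ^ 2 / NN V + 5 * L * (e / (20 * L)))) ≤
        nn V * (e / 2) := by
      have : nn V / L * (L * (4 * (L : ℝ) ^ 2 / NN V + 5 * L * (e / (20 * L)))) =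
        nn V * (4 * (L : ℝ) ^ 2 / NN V + 5 * L * (e / (20 * L))) := by
        field_simp
      rw [this]
      exact mul_le_mul_of_nonneg_left hlam hn.le
    have h5 : ∑ P : Fin L → V, wt l BadV BadE BadT P * F i P ≤ nn V := by
      calc ∑ P : Fin L → V, wt l BadV BadE BadT P * F i P
          ≤ ∑ P : Fin L → V, wt l BadV BadE BadT P * L :=
            sum_le_sum fun P _ => mul_le_mul_of_nonneg_left (hF i P).2 (wt_nonneg hl _ _ _ P)
        _ = (∑ P : Fin L → V, wt l BadV BadE BadT P) * L := by rw [sum_mul]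
        _ ≤ nn V / L * L := mul_le_mul_of_nonneg_right hWle hL0.le
        _ = nn V := by field_simp
    have h6 : e / 8 * (∑ P : Fin L → V, wt l BadV BadE BadT P * F i P) ≤ e / 8 * nn V :=
      mul_le_mul_of_nonneg_left h5 (by positivity)
    have h7 : e / 8 * (∑ P : Fin L → V, wt l BadV BadE BadT P) ≤ e / 8 * nn V :=
      mul_le_mul_of_nonneg_left (hWle.trans hnL) (by positivity)
    linarith

end Pool.H60BX
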