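import Pool.Agent.H60.BX.Marg

set_option autoImplicit false

/-! The lost measure: tuples that are not clean. -/

namespace Pool.H60BX

open Finset
open Pool.H90BX
open scoped Classical

variable {V : Type} [Fintype V] [DecidableEq V] {l : LS V}

theorem mmNn60 (hl : Bdd l) (v : V) (i j : Lb) : 0 ≤ mm l v i j := by
  have hN := NNp60 hl
  unfold mm
  split_ifs with h1 h2 h3
  · exact le_rfl
  · positivity
  · exact le_rfl
  · rcases hl.2 v with h | h
    · have h4 := h.2 (third i j)
      have h5 : ((2 * cnt l v (third i j) + 2 : ℕ) : ℝ) ≤ Fintype.card V := by exact_mod_cast h4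
      push_cast at h5
      unfold NN
      linarith
    · exact absurd h h2

theorem mmSf60 (v : V) (i : Lb) : mm l v i i = 0 := if_pos rfl

theorem QNn60 (hl : Bdd l) (v x y : V) : 0 ≤ Q l v x y := by
  unfold Q
  split_ifs
  · exact div_nonneg (mmNn60 hl _ _ _) (by positivity)
  · exact le_rfl

theorem muNn60 (hl : Bdd l) (L : ℕ) [NeZero L] (P : Fin L → V) : 0 ≤ mu l L P := by
  have hn := nnp60 hl
  have hN := NNp60 hl
  unfold mu
  refine mul_nonneg ?_ (prod_nonneg fun a _ => QNn60 hl _ _ _)
  split_ifs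
  · positivity
  · exact le_rfl

theorem ptEq60 {W : Type} {L : ℕ} [NeZero L] (P : Fin L → W) {a : ℕ} (h : a < L) :
    pt P a = P ⟨a, h⟩ := by
  unfold pt
  congr 1
  exact Fin.ext (Nat.mod_eq_of_lt h)

/-- positive tuples are compatible -/
theorem comp_of_mu {L : ℕ} [NeZero L] {P : Fin L → V} (h : mu l L P ≠ 0) (a : ℕ)
    (ha : a + 2 < L) : l (pt P (a + 1)) (pt P a) ≠ l (pt P (a + 1)) (pt P (a + 2)) := by
  intro he
  apply h
  unfold mu
  have h0 : Q l (pt P (a + 1)) (pt P a) (pt P (a + 2)) = 0 := by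
    unfold Q
    split_ifs
    · rw [he, mmSf60, zero_div]
    · rfl
  rw [prod_eq_zero (mem_range.2 (by omega : a < L - 2)) h0, mul_zero]

theorem not_clean {L : ℕ} [NeZero L] {P : Fin L → V} {BadV : Finset V} {BadE : V → V → Prop}
    {BadT : V → Lb → Lb → Prop} (hmu : mu l L P ≠ 0) (hc : ¬ Clean l BadV BadE BadT P) :
    (∃ a b, a ≠ b ∧ P a = P b) ∨ (∃ a, P a ∈ BadV) ∨
      (∃ a, a + 1 < L ∧ pt P a ≠ pt P (a + 1) ∧ BadE (pt P a) (pt P (a + 1))) ∨
      (∃ a, a + 2 < L ∧ BadT (pt P (a + 1)) (l (pt P (a + 1)) (pt P a))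
        (l (pt P (a + 1)) (pt P (a + 2)))) := by
  by_contra hcon
  push Not at hcon
  obtain ⟨h1, h2, h3, h4⟩ := hcon
  have hinj : Function.Injective P := by
    intro a b hab
    by_contra hne
    exact h1 a b hne hab
  refine hc ⟨hinj, fun a ha => comp_of_mu hmu a ha, h2, fun a ha => ?_, fun a ha => h4 a ha⟩
  refine h3 a ha ?_
  rw [ptEq60 P (by omega : a < L), ptEq60 P ha]
  intro he
  have := hinj he
  rw [Fin.mk.injEq] at this
  omega

theorem fiber60 (v : V) (f : Lb → ℝ) :
    ∑ w, (if w ≠ v then f (l v w) else 0) = ∑ i, (cnt l v i : ℝ) * f i := by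
  have h1 : ∀ i, (cnt l v i : ℝ) * f i = ∑ w, if w ≠ v ∧ l v w = i then f i else 0 := by
    intro i
    rw [← Finset.sum_filter, Finset.sum_const, nsmul_eq_mul]
    rfl
  simp_rw [h1]
  rw [Finset.sum_comm]
  refine Finset.sum_congr rfl fun w _ => ?_
  by_cases h : w = v
  · simp [h]
  · simp [h]

/-- mass of the bad transitions at one vertex -/
theorem trans_vertex (hl : Bdd l) (v : V) (B : Lb → Lb → Prop) :
    ∑ u, ∑ w, (if u ≠ v then Q l v u w * (if B (l v u) (l v w) then 1 else 0) else 0) ≤
      ∑ i, ∑ j, (if B i j then mm l v i j else 0) := by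
  have h1 : ∀ u, (∑ w, (if u ≠ v then Q l v u w * (if B (l v u) (l v w) then 1 else 0) else 0)) =
      if u ≠ v then ∑ j, (cnt l v j : ℝ) *
        (mm l v (l v u) j / (cnt l v (l v u) * cnt l v j) * (if B (l v u) j then 1 else 0))
      else 0 := by
    intro u
    by_cases hu : u = v
    · simp [hu]
    · rw [if_pos hu, ← fiber60 v (fun j => mm l v (l v u) j / (cnt l v (l v u) * cnt l v j) *
        (if B (l v u) j then 1 else 0))]
      refine sum_congr rfl fun w _ => ?_
      rw [if_pos hu]
      unfold Q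
      by_cases hw : w = v
      · simp [hw]
      · simp [hw, hu]
  simp_rw [h1]
  rw [fiber60 v (fun i => ∑ j, (cnt l v j : ℝ) *
        (mm l v i j / (cnt l v i * cnt l v j) * (if B i j then 1 else 0)))]
  refine sum_le_sum fun i _ => ?_
  rw [mul_sum]
  refine sum_le_sum fun j _ => ?_
  have hm := mmNn60 hl v i j
  split_ifs with hB
  · rcases eq_or_ne ((cnt l v i : ℝ)) 0 with hi | hi
    · rw [hi]; simpa using hm
    rcases eq_or_ne ((cnt l v j : ℝ)) 0 with hj | hj
    · rw [hj]; simpa using hm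
    apply le_of_eq
    field_simp
  · simp

theorem trans_total (hl : Bdd l) (L : ℕ) [NeZero L] (a : ℕ) (ha : a + 3 ≤ L)
    (BadT : V → Lb → Lb → Prop) :
    ∑ P : Fin L → V, (if BadT (pt P (a + 1)) (l (pt P (a + 1)) (pt P a))
        (l (pt P (a + 1)) (pt P (a + 2))) then mu l L P else 0) ≤
      1 / (nn V * NN V) * ∑ v, ∑ i, ∑ j, (if BadT v i j then mm l v i j else 0) := by
  have hn := nnp60 hl
  have hN := NNp60 hl
  have h := tri_sum hl L a ha
    (fun u v w => if BadT v (l v u) (l v w) then (1 : ℝ) else 0)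
  have h2 : ∀ P : Fin L → V, (if BadT (pt P (a + 1)) (l (pt P (a + 1)) (pt P a))
        (l (pt P (a + 1)) (pt P (a + 2))) then mu l L P else 0) =
      mu l L P * (if BadT (pt P (a + 1)) (l (pt P (a + 1)) (pt P a))
        (l (pt P (a + 1)) (pt P (a + 2))) then (1 : ℝ) else 0) := by
    intro P
    split_ifs <;> simp
  simp_rw [h2]
  rw [h, sum_comm, mul_sum]
  refine sum_le_sum fun v _ => ?_
  refine le_trans (le_of_eq ?_)
    (mul_le_mul_of_nonneg_left (trans_vertex hl v (BadT v)) (by positivity))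
  rw [mul_sum]
  refine sum_congr rfl fun u _ => ?_
  rw [mul_sum]
  refine sum_congr rfl fun w _ => ?_
  split_ifs <;> ring

/-- the pair marginals are small -/
def PairM (l : LS V) (L : ℕ) [NeZero L] : Prop :=
  ∀ a b : Fin L, a ≠ b → ∀ u v : V,
    ∑ P : Fin L → V, (if P a = u ∧ P b = v then mu l L P else 0) ≤ 4 / (nn V * NN V)

theorem loss (hl : Bdd l) (L : ℕ) [NeZero L] (hL : 4 ≤ L) (hpm : PairM l L) {xi : ℝ}
    (hxi : 0 ≤ xi) (BadV : Finset V) (BadE : V → V → Prop) (BadT : V → Lb → Lb → Prop)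
    (hbad : BadSmall l xi BadV BadE BadT) :
    ∑ P : Fin L → V, (if Clean l BadV BadE BadT P then 0 else mu l L P) ≤
      4 * (L : ℝ) ^ 2 / NN V + 5 * L * xi := by
  have hn := nnp60 hl
  have hN := NNp60 hl
  have hn2 : nn V ≤ 2 * NN V := by
    have h := hl.1
    have h2 : (3 : ℝ) ≤ Fintype.card V := by exact_mod_cast h
    unfold nn NN; linarith
  have hL0 : (0 : ℝ) ≤ L := Nat.cast_nonneg _
  obtain ⟨hb1, hb2, hb3⟩ := hbad
  -- pointwise bound
  have hpw : ∀ P : Fin L → V, (if Clean l BadV BadE BadT P then 0 else mu l L P) ≤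
      (∑ a : Fin L, ∑ b : Fin L, (if a ≠ b ∧ P a = P b then mu l L P else 0)) +
      (∑ a : Fin L, (if P a ∈ BadV then mu l L P else 0)) +
      (∑ a ∈ range (L - 1), (if pt P a ≠ pt P (a + 1) ∧ BadE (pt P a) (pt P (a + 1))
        then mu l L P else 0)) +
      (∑ a ∈ range (L - 2), (if BadT (pt P (a + 1)) (l (pt P (a + 1)) (pt P a))
        (l (pt P (a + 1)) (pt P (a + 2))) then mu l L P else 0)) := by
    intro P
    have hm := muNn60 hl L P
    have g1 : 0 ≤ ∑ a : Fin L, ∑ b : Fin L, (if a ≠ b ∧ P a = P b then mu l L P else 0) :=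
      sum_nonneg fun a _ => sum_nonneg fun b _ => by split_ifs <;> simp [hm]
    have g2 : 0 ≤ ∑ a : Fin L, (if P a ∈ BadV then mu l L P else 0) :=
      sum_nonneg fun a _ => by split_ifs <;> simp [hm]
    have g3 : 0 ≤ ∑ a ∈ range (L - 1), (if pt P a ≠ pt P (a + 1) ∧ BadE (pt P a) (pt P (a + 1))
        then mu l L P else 0) := sum_nonneg fun a _ => by split_ifs <;> simp [hm]
    have g4 : 0 ≤ ∑ a ∈ range (L - 2), (if BadT (pt P (a + 1)) (l (pt P (a + 1)) (pt P a))
        (l (pt P (a + 1)) (pt P (a + 2))) then mu l L P else 0) :=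
      sum_nonneg fun a _ => by split_ifs <;> simp [hm]
    by_cases hc : Clean l BadV BadE BadT P
    · rw [if_pos hc]; linarith
    rw [if_neg hc]
    by_cases hmu : mu l L P = 0
    · have := hmu; linarith
    rcases not_clean hmu hc with ⟨a, b, hab, he⟩ | ⟨a, ha⟩ | ⟨a, ha, hne, hE⟩ | ⟨a, ha, hT⟩
    · have h1 : mu l L P ≤ ∑ b : Fin L, (if a ≠ b ∧ P a = P b then mu l L P else 0) := by
        refine le_trans (le_of_eq ?_) (single_le_sum (f := fun b : Fin L =>
          (if a ≠ b ∧ P a = P b then mu l L P else 0)) (fun c _ => ?_) (mem_univ b))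
        · simp [hab, he]
        · split_ifs <;> simp [hm]
      have h2 : (∑ b : Fin L, (if a ≠ b ∧ P a = P b then mu l L P else 0)) ≤
          ∑ a : Fin L, ∑ b : Fin L, (if a ≠ b ∧ P a = P b then mu l L P else 0) :=
        single_le_sum (f := fun a : Fin L => ∑ b : Fin L,
          (if a ≠ b ∧ P a = P b then mu l L P else 0))
          (fun c _ => sum_nonneg fun b _ => by split_ifs <;> simp [hm]) (mem_univ a)
      linarith
    · have h1 : mu l L P ≤ ∑ a : Fin L, (if P a ∈ BadV then mu l L P else 0) := by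
        refine le_trans (le_of_eq ?_) (single_le_sum (f := fun a : Fin L =>
          (if P a ∈ BadV then mu l L P else 0)) (fun c _ => ?_) (mem_univ a))
        · simp [ha]
        · split_ifs <;> simp [hm]
      linarith
    · have h1 : mu l L P ≤ ∑ a ∈ range (L - 1),
          (if pt P a ≠ pt P (a + 1) ∧ BadE (pt P a) (pt P (a + 1)) then mu l L P else 0) := by
        refine le_trans (le_of_eq ?_) (single_le_sum (f := fun a =>
          (if pt P a ≠ pt P (a + 1) ∧ BadE (pt P a) (pt P (a + 1)) then mu l L P else 0))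
          (fun c _ => ?_) (mem_range.2 (by omega : a < L - 1)))
        · rw [if_pos ⟨hne, hE⟩]
        · split_ifs <;> simp [hm]
      linarith
    · have h1 : mu l L P ≤ ∑ a ∈ range (L - 2), (if BadT (pt P (a + 1))
          (l (pt P (a + 1)) (pt P a)) (l (pt P (a + 1)) (pt P (a + 2)))
          then mu l L P else 0) := by
        refine le_trans (le_of_eq ?_) (single_le_sum (f := fun a =>
          (if BadT (pt P (a + 1)) (l (pt P (a + 1)) (pt P a))
          (l (pt P (a + 1)) (pt P (a + 2))) then mu l L P else 0))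
          (fun c _ => ?_) (mem_range.2 (by omega : a < L - 2)))
        · rw [if_pos hT]
        · split_ifs <;> simp [hm]
      linarith
  -- the four sums
  have hA : ∑ P : Fin L → V, (∑ a : Fin L, ∑ b : Fin L,
      (if a ≠ b ∧ P a = P b then mu l L P else 0)) ≤ 4 * (L : ℝ) ^ 2 / NN V := by
    rw [sum_comm]
    have h1 : ∀ a : Fin L, ∑ P : Fin L → V, ∑ b : Fin L,
        (if a ≠ b ∧ P a = P b then mu l L P else 0) ≤ L * (4 / NN V) := by
      intro a
      rw [sum_comm]
      have h2 : ∀ b : Fin L, ∑ P : Fin L → V, (if a ≠ b ∧ P a = P b then mu l L P else 0) ≤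
          4 / NN V := by
        intro b
        by_cases hab : a = b
        · simp only [hab, ne_eq, not_true_eq_false, false_and, if_false, sum_const_zero]
          positivity
        have h3 : ∀ P : Fin L → V, (if a ≠ b ∧ P a = P b then mu l L P else 0) =
            ∑ v, (if P a = v ∧ P b = v then mu l L P else 0) := by
          intro P
          by_cases hP : P a = P b
          · rw [if_pos ⟨hab, hP⟩, sum_eq_single (P a)]
            · simp [hP]
            · intro v _ hv
              rw [if_neg]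
              exact fun h => hv h.1.symm
            · intro h; exact absurd (mem_univ _) h
          · rw [if_neg (fun h => hP h.2)]
            refine (sum_eq_zero fun v _ => if_neg ?_).symm
            exact fun h => hP (h.1.trans h.2.symm)
        simp_rw [h3]
        rw [sum_comm]
        calc ∑ v, ∑ P : Fin L → V, (if P a = v ∧ P b = v then mu l L P else 0)
            ≤ ∑ _v : V, 4 / (nn V * NN V) := sum_le_sum fun v _ => hpm a b hab v v
          _ = 4 / NN V := by
            rw [sum_const, card_univ, nsmul_eq_mul]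
            change nn V * (4 / (nn V * NN V)) = 4 / NN V
            field_simp
      calc ∑ b : Fin L, ∑ P : Fin L → V, (if a ≠ b ∧ P a = P b then mu l L P else 0)
          ≤ ∑ _b : Fin L, 4 / NN V := sum_le_sum fun b _ => h2 b
        _ = L * (4 / NN V) := by rw [sum_const, card_univ, Fintype.card_fin, nsmul_eq_mul]
    calc ∑ a : Fin L, ∑ P : Fin L → V, ∑ b : Fin L,
          (if a ≠ b ∧ P a = P b then mu l L P else 0)
        ≤ ∑ _a : Fin L, L * (4 / NN V) := sum_le_sum fun a _ => h1 a
      _ = 4 * (L : ℝ) ^ 2 / NN V := by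
        rw [sum_const, card_univ, Fintype.card_fin, nsmul_eq_mul]; ring
  have hB : ∑ P : Fin L → V, (∑ a : Fin L, (if P a ∈ BadV then mu l L P else 0)) ≤ L * xi := by
    rw [sum_comm]
    have h1 : ∀ a : Fin L, ∑ P : Fin L → V, (if P a ∈ BadV then mu l L P else 0) ≤ xi := by
      intro a
      have h2 := one_sum hl L (by omega) a a.2 (fun v => if v ∈ BadV then (1 : ℝ) else 0)
      have h3 : ∀ P : Fin L → V, (if P a ∈ BadV then mu l L P else 0) =
          mu l L P * (if pt P a ∈ BadV then (1 : ℝ) else 0) := by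
        intro P
        rw [ptEq60 P a.2]
        split_ifs <;> simp
      simp_rw [h3]
      rw [h2, ← mul_sum, sum_boole, filter_mem_eq_inter, univ_inter, one_div, inv_mul_le_iff₀ hn]
      linarith
    calc ∑ a : Fin L, ∑ P : Fin L → V, (if P a ∈ BadV then mu l L P else 0)
        ≤ ∑ _a : Fin L, xi := sum_le_sum fun a _ => h1 a
      _ = L * xi := by rw [sum_const, card_univ, Fintype.card_fin, nsmul_eq_mul]
  have hxx : xi * nn V ^ 2 * (1 / (nn V * NN V)) ≤ 2 * xi := by
    have h1 : xi * nn V ^ 2 * (1 / (nn V * NN V)) = xi * (nn V / NN V) := by field_simp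
    rw [h1]
    have h2 : nn V / NN V ≤ 2 := by rw [div_le_iff₀ hN]; linarith
    nlinarith
  have hC : ∑ P : Fin L → V, (∑ a ∈ range (L - 1),
      (if pt P a ≠ pt P (a + 1) ∧ BadE (pt P a) (pt P (a + 1)) then mu l L P else 0)) ≤
      L * (2 * xi) := by
    rw [sum_comm]
    have h1 : ∀ a ∈ range (L - 1), ∑ P : Fin L → V,
        (if pt P a ≠ pt P (a + 1) ∧ BadE (pt P a) (pt P (a + 1)) then mu l L P else 0) ≤
        2 * xi := by
      intro a ha
      have ha' := mem_range.1 ha
      have h2 := edge_sum hl L a (by omega)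
        (fun u v => if u ≠ v ∧ BadE u v then (1 : ℝ) else 0)
      have h3 : ∀ P : Fin L → V,
          (if pt P a ≠ pt P (a + 1) ∧ BadE (pt P a) (pt P (a + 1)) then mu l L P else 0) =
          mu l L P * (if pt P a ≠ pt P (a + 1) ∧ BadE (pt P a) (pt P (a + 1)) then (1 : ℝ)
            else 0) := by
        intro P
        split_ifs <;> simp
      simp_rw [h3]
      rw [h2]
      have h4 : ∑ u : V, ∑ v : V, (if u ≠ v then 1 / (nn V * NN V) else 0) *
          (if u ≠ v ∧ BadE u v then (1 : ℝ) else 0) =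
          ((univ.filter (fun p : V × V => p.1 ≠ p.2 ∧ BadE p.1 p.2)).card : ℝ) *
            (1 / (nn V * NN V)) := by
        rw [card_filter]
        push_cast
        rw [sum_mul, Fintype.sum_prod_type]
        refine sum_congr rfl fun u _ => sum_congr rfl fun v _ => ?_
        by_cases h5 : u = v
        · simp [h5]
        · by_cases h6 : BadE u v
          · simp [h5, h6]
          · simp [h6]
      rw [h4]
      exact le_trans (mul_le_mul_of_nonneg_right hb2 (by positivity)) hxx
    calc ∑ a ∈ range (L - 1), ∑ P : Fin L → V,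
          (if pt P a ≠ pt P (a + 1) ∧ BadE (pt P a) (pt P (a + 1)) then mu l L P else 0)
        ≤ ∑ _a ∈ range (L - 1), 2 * xi := sum_le_sum h1
      _ = ((L - 1 : ℕ) : ℝ) * (2 * xi) := by rw [sum_const, card_range, nsmul_eq_mul]
      _ ≤ L * (2 * xi) := by
        refine mul_le_mul_of_nonneg_right ?_ (by positivity)
        exact_mod_cast Nat.sub_le L 1
  have hD : ∑ P : Fin L → V, (∑ a ∈ range (L - 2), (if BadT (pt P (a + 1))
      (l (pt P (a + 1)) (pt P a)) (l (pt P (a + 1)) (pt P (a + 2))) then mu l L P else 0)) ≤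
      L * (2 * xi) := by
    rw [sum_comm]
    have h1 : ∀ a ∈ range (L - 2), ∑ P : Fin L → V, (if BadT (pt P (a + 1))
        (l (pt P (a + 1)) (pt P a)) (l (pt P (a + 1)) (pt P (a + 2))) then mu l L P else 0) ≤
        2 * xi := by
      intro a ha
      have ha' := mem_range.1 ha
      refine (trans_total hl L a (by omega) BadT).trans ?_
      refine le_trans (mul_le_mul_of_nonneg_left hb3 (by positivity)) ?_
      rw [mul_comm]
      exact hxx
    calc ∑ a ∈ range (L - 2), ∑ P : Fin L → V, (if BadT (pt P (a + 1))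
          (l (pt P (a + 1)) (pt P a)) (l (pt P (a + 1)) (pt P (a + 2))) then mu l L P else 0)
        ≤ ∑ _a ∈ range (L - 2), 2 * xi := sum_le_sum h1
      _ = ((L - 2 : ℕ) : ℝ) * (2 * xi) := by rw [sum_const, card_range, nsmul_eq_mul]
      _ ≤ L * (2 * xi) := by
        refine mul_le_mul_of_nonneg_right ?_ (by positivity)
        exact_mod_cast Nat.sub_le L 2
  calc ∑ P : Fin L → V, (if Clean l BadV BadE BadT P then 0 else mu l L P)
      ≤ ∑ P : Fin L → V, ((∑ a : Fin L, ∑ b : Fin L, (if a ≠ b ∧ P a = P b then mu l L P else 0)) +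
      (∑ a : Fin L, (if P a ∈ BadV then mu l L P else 0)) +
      (∑ a ∈ range (L - 1), (if pt P a ≠ pt P (a + 1) ∧ BadE (pt P a) (pt P (a + 1))
        then mu l L P else 0)) +
      (∑ a ∈ range (L - 2), (if BadT (pt P (a + 1)) (l (pt P (a + 1)) (pt P a))
        (l (pt P (a + 1)) (pt P (a + 2))) then mu l L P else 0))) := sum_le_sum fun P _ => hpw P
    _ ≤ 4 * (L : ℝ) ^ 2 / NN V + 5 * L * xi := by
      rw [sum_add_distrib, sum_add_distrib, sum_add_distrib]
      linarith

end Pool.H60BX
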