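import Pool.Agent.H46.BX.Marg

set_option autoImplicit false

/-! Marginals of the path measure (from the window lemma). -/

namespace Pool.H60BX

open Finset
open Pool.H90BX
open scoped Classical

variable {V : Type} [Fintype V] [DecidableEq V] {l : LS V}

theorem window (L w : ℕ) [NeZero L] [NeZero w] (hw : 2 ≤ w) (p : ℕ) (hp : p + w ≤ L)
    (hl : Bdd l) (g : (Fin w → V) → ℝ) :
    ∑ P : Fin L → V, mu l L P * g (fun a => pt P (p + a)) = ∑ x : Fin w → V, mu l w x * g x :=
  Fl46.mu_window_d hl w hw g p (L - w - p) L (by omega)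

theorem nnp60 (hl : Bdd l) : 0 < nn V := by
  have h := hl.1
  have h2 : (3 : ℝ) ≤ Fintype.card V := by exact_mod_cast h
  unfold nn; linarith

theorem NNp60 (hl : Bdd l) : 0 < NN V := by
  have h := hl.1
  have h2 : (3 : ℝ) ≤ Fintype.card V := by exact_mod_cast h
  unfold NN; linarith

theorem sum_fin2 (f : (Fin 2 → V) → ℝ) : ∑ x, f x = ∑ u, ∑ v, f ![u, v] := by
  rw [← (finTwoArrowEquiv V).symm.sum_comp, Fintype.sum_prod_type]
  rfl

theorem sum_fin3 (f : (Fin 3 → V) → ℝ) : ∑ x, f x = ∑ u, ∑ v, ∑ w, f ![u, v, w] := by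
  rw [← (Fin.consEquiv (fun _ : Fin 3 => V)).sum_comp, Fintype.sum_prod_type]
  refine sum_congr rfl fun u _ => ?_
  rw [sum_fin2 (fun y => f ((Fin.consEquiv (fun _ : Fin 3 => V)) (u, y)))]
  rfl

theorem muTwo60 (u v : V) :
    mu l 2 ![u, v] = if u ≠ v then 1 / (nn V * NN V) else 0 := by
  simp [mu, pt, Fin.ofNat]

theorem muThree60 (u v w : V) :
    mu l 3 ![u, v, w] = (if u ≠ v then 1 / (nn V * NN V) else 0) * Q l v u w := by
  simp [mu, pt, Fin.ofNat]

theorem edge_sum (hl : Bdd l) (L : ℕ) [NeZero L] (a : ℕ) (ha : a + 2 ≤ L) (g : V → V → ℝ) :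
    ∑ P : Fin L → V, mu l L P * g (pt P a) (pt P (a + 1)) =
      ∑ u, ∑ v, (if u ≠ v then 1 / (nn V * NN V) else 0) * g u v := by
  have h := window L 2 le_rfl a ha hl (fun x => g (x 0) (x 1))
  rw [sum_fin2] at h
  simp only [muTwo60] at h
  simpa using h

theorem tri_sum (hl : Bdd l) (L : ℕ) [NeZero L] (a : ℕ) (ha : a + 3 ≤ L) (g : V → V → V → ℝ) :
    ∑ P : Fin L → V, mu l L P * g (pt P a) (pt P (a + 1)) (pt P (a + 2)) =
      ∑ u, ∑ v, ∑ w, ((if u ≠ v then 1 / (nn V * NN V) else 0) * Q l v u w) * g u v w := by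
  have h := window L 3 (by norm_num) a ha hl (fun x => g (x 0) (x 1) (x 2))
  rw [sum_fin3] at h
  simp only [muThree60] at h
  simpa using h

theorem sumNe60 (u : V) (c : ℝ) : ∑ v : V, (if u ≠ v then c else 0) = NN V * c := by
  have h1 : ∀ v : V, (if u ≠ v then c else 0) = c - if u = v then c else 0 := by
    intro v
    by_cases h : u = v
    · simp [h]
    · simp [h]
  simp_rw [h1]
  rw [sum_sub_distrib, sum_const, sum_ite_eq, if_pos (mem_univ _), card_univ, nsmul_eq_mul]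
  unfold NN
  ring

theorem one_sum (hl : Bdd l) (L : ℕ) [NeZero L] (hL : 2 ≤ L) (a : ℕ) (ha : a < L) (g : V → ℝ) :
    ∑ P : Fin L → V, mu l L P * g (pt P a) = ∑ v, 1 / nn V * g v := by
  have hn := nnp60 hl
  have hN := NNp60 hl
  rcases Nat.lt_or_ge (a + 1) L with h | h
  · rw [edge_sum hl L a h (fun u _ => g u)]
    refine sum_congr rfl fun u _ => ?_
    rw [← sum_mul, sumNe60]
    field_simp
  · obtain ⟨b, rfl⟩ : ∃ b, a = b + 1 := ⟨a - 1, by omega⟩
    rw [edge_sum hl L b (by omega) (fun _ v => g v), sum_comm]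
    refine sum_congr rfl fun v _ => ?_
    rw [← sum_mul]
    have h2 : ∀ u : V, (if u ≠ v then 1 / (nn V * NN V) else 0) =
        if v ≠ u then 1 / (nn V * NN V) else 0 := by
      intro u
      simp [ne_comm]
    simp_rw [h2]
    rw [sumNe60]
    field_simp

theorem mu_total (hl : Bdd l) (L : ℕ) [NeZero L] (hL : 2 ≤ L) :
    ∑ P : Fin L → V, mu l L P = 1 := by
  have h := one_sum hl L hL 0 (by omega) (fun _ => 1)
  simp only [mul_one] at h
  rw [h, sum_const, card_univ, nsmul_eq_mul]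
  have hn := nnp60 hl
  unfold nn at hn ⊢
  field_simp

end Pool.H60BX
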